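import Pool.Agent.Helper73.LF.Goals

/-!
# Linear forms in algebraic numbers (MP_c307ca_nt): the versions with a shift
-/

set_option autoImplicit false

open Finset

namespace Pool.Agent.Helper73.LF

open Pool.Agent.Helper98.Lang

/-- LF-FOU with a shift. -/
def GFouB : Prop := ∀ (m H T : ℕ) (θ : Fin m → ℝ) (β : ℝ), 1 ≤ T →
  (∀ h : ℕ, 1 ≤ h → ∀ i, 0 < nd (h * θ i)) →
  ∀ S : Finset (Fin m → ℤ),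
    (∀ a ∈ S, (∀ i, |a i| ≤ (H : ℤ)) ∧ nd (β + ∑ i, (a i : ℝ) * θ i) ≤ 1 / (2 * T)) →
    (S.card : ℝ) ≤ 3 / T * ((2 * (H : ℝ) + 1) ^ m + 2 * ∑ h ∈ Ico 1 T, Pr θ H h)

/-- the final statement with a shift -/
def FinalB : Prop := ∀ e : ℝ, 0 < e → ∃ C : ℝ, ∀ (m : ℕ) (x : Fin m → ℝ), 1 ≤ m →
  (∀ i, IsAlgebraic ℚ (x i)) → Indep x → ∀ c k : ℝ, 0 < c → 0 < k →
  ∃ H0 : ℕ, ∀ H : ℕ, H0 ≤ H → ∀ Q : ℕ, 2 ≤ Q → ∀ β : ℝ,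
    ({a : Fin m → ℤ | (∀ i, |a i| ≤ (H : ℤ)) ∧ ∃ (p : ℤ) (q : ℕ), Q ≤ q ∧
      (q : ℝ) ≤ (H : ℝ) ^ ((m : ℝ) - k) ∧
      |β + ∑ i, (a i : ℝ) * x i - (p : ℝ) / (q : ℝ)| ≤
        c / ((q : ℝ) ^ 2 * Real.log (q : ℝ) ^ (1 + e))}.ncard : ℝ)
      ≤ C * c * (2 * (H : ℝ) + 1) ^ m / Real.log Q ^ e

end Pool.Agent.Helper73.LF
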