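import Pool.Agent.Helper73.LF.Sch
import Pool.Agent.Helper73.LF.GoalsC

/-!
# Linear forms in algebraic numbers (MP_c307ca_nt): linear independence
-/

set_option autoImplicit false

open Finset

namespace Pool.Agent.Helper73.LF

theorem indep_of {m : ℕ} {x : Fin m → ℝ}
    (h : LinearIndependent ℚ (Fin.cons (1 : ℝ) x : Fin (m + 1) → ℝ)) : Indep x := by
  intro u v huv
  rw [Fintype.linearIndependent_iff] at h
  have h1 := h (Fin.cons (u : ℚ) (fun i => (v i : ℚ))) (by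
    rw [Fin.sum_univ_succ]
    simp only [Fin.cons_zero, Fin.cons_succ, Rat.smul_def]
    push_cast
    rw [mul_one]
    exact huv)
  constructor
  · have := h1 0
    simp only [Fin.cons_zero] at this
    exact_mod_cast this
  · funext i
    have := h1 i.succ
    simp only [Fin.cons_succ] at this
    rw [Pi.zero_apply]
    exact_mod_cast this

/-- the final form -/
theorem main_of (h : FinalB) (e : ℝ) (he : 0 < e) :
    ∃ C : ℝ, ∀ (m : ℕ) (x : Fin m → ℝ), 1 ≤ m → (∀ i, IsAlgebraic ℚ (x i)) →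
      LinearIndependent ℚ (Fin.cons (1 : ℝ) x : Fin (m + 1) → ℝ) →
      ∀ c k : ℝ, 0 < c → 0 < k → ∃ H0 : ℕ, ∀ H : ℕ, H0 ≤ H → ∀ (β : ℝ) (Q : ℕ), 2 ≤ Q →
        ({a : Fin m → ℤ | (∀ i, |a i| ≤ (H : ℤ)) ∧ ∃ (p : ℤ) (q : ℕ), Q ≤ q ∧
            (q : ℝ) ≤ (H : ℝ) ^ ((m : ℝ) - k) ∧
            |β + ∑ i, (a i : ℝ) * x i - (p : ℝ) / (q : ℝ)| ≤
              c / ((q : ℝ) ^ 2 * Real.log (q : ℝ) ^ (1 + e))}.ncard : ℝ)
          ≤ C * c * (2 * (H : ℝ) + 1) ^ m / Real.log Q ^ e := by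
  obtain ⟨C, hC⟩ := h e he
  refine ⟨C, fun m x hm hx hind c k hc hk => ?_⟩
  obtain ⟨H0, hH0⟩ := hC m x hm hx (indep_of hind) c k hc hk
  exact ⟨H0, fun H hH β Q hQ => hH0 H hH Q hQ β⟩

end Pool.Agent.Helper73.LF
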