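import Pool.Agent.Helper98.LF.Schmidt
import Pool.Agent.Helper46.LF.CNT
import Pool.Agent.Helper44.LF.SUM
import Pool.Agent.Helper96.LF.FOU
import Pool.Agent.Helper23.LF.BLK
import Pool.Agent.Helper43.LF.LOG
import Pool.Agent.Helper71.LF.FIN

/-!
# Linear forms in algebraic numbers (MP_c307ca_nt): the pieces
-/

set_option autoImplicit false

namespace Pool.Agent.Helper73.LF

theorem gsch : GSch := Pool.Agent.Helper98.LF.schmidt
theorem gcnt : GCnt := Pool.Agent.Helper46.LF.cnt
theorem gsum : GSum := Pool.Agent.Helper44.LF.sum_of gcnt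
theorem gfou : GFou := Pool.Agent.Helper96.LF.fou
theorem gblk : GBlk := Pool.Agent.Helper23.LF.blk_of gsum
theorem glog : GLog := Pool.Agent.Helper43.LF.log_sum

/-- **LF** -/
theorem lf : Final := Pool.Agent.Helper71.LF.final_of gsch gfou gblk glog

end Pool.Agent.Helper73.LF
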