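import Pool.Agent.Helper98.Lang.Defs
import Pool.Agent.Helper92.Avg.Series

/-!
# Linear forms in algebraic numbers (MP_c307ca_nt): definitions and the statements of the packets
-/

set_option autoImplicit false

open Finset

namespace Pool.Agent.Helper73.LF

open Pool.Agent.Helper98.Lang

/-- Schmidt's property -/
def SchP {m : ℕ} (x : Fin m → ℝ) : Prop := ∀ δ : ℝ, 0 < δ → ∃ c : ℝ, 0 < c ∧ ∀ n : ℕ, 1 ≤ n →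
  c * (n : ℝ) ^ (-(1 + δ)) ≤ ∏ i, nd (n * x i)

/-- `1, x_1, ..., x_m` are linearly independent over `ℚ` -/
def Indep {m : ℕ} (x : Fin m → ℝ) : Prop :=
  ∀ (u : ℤ) (v : Fin m → ℤ), (u : ℝ) + ∑ i, (v i : ℝ) * x i = 0 → u = 0 ∧ v = 0

/-- the product over the coordinates -/
noncomputable def Pr {m : ℕ} (θ : Fin m → ℝ) (H h : ℕ) : ℝ :=
  ∏ i, min (2 * (H : ℝ) + 1) (1 / nd (h * θ i))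

/-- `c / (q (log q)^(1+e))` -/
noncomputable def tq (e c : ℝ) (q : ℕ) : ℝ := c / ((q : ℝ) * Real.log q ^ (1 + e))

/-- `⌊1 / (2 t_q)⌋` -/
noncomputable def Tq (e c : ℝ) (q : ℕ) : ℕ := ⌊1 / (2 * tq e c q)⌋₊

/-- LF-SCH: Schmidt's theorem. -/
def GSch : Prop := ∀ (m : ℕ) (x : Fin m → ℝ), (∀ i, IsAlgebraic ℚ (x i)) → Indep x → SchP x

/-- LF-CNT: counting. -/
def GCnt : Prop := ∀ (m : ℕ) (x : Fin m → ℝ), SchP x → ∀ δ : ℝ, 0 < δ → ∃ C : ℝ, 0 < C ∧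
  ∀ (Y : ℕ) (t : Fin m → ℝ), (∀ i, 0 < t i) → (∀ i, t i ≤ 1) →
    ∀ S : Finset ℕ, (∀ y ∈ S, 1 ≤ y ∧ y ≤ Y ∧ ∀ i, nd (y * x i) ≤ t i) →
      (S.card : ℝ) ≤ C * (Y : ℝ) ^ (1 + δ) * ∏ i, t i

/-- LF-SUM: the sum of the products. -/
def GSum : Prop := ∀ (m : ℕ) (x : Fin m → ℝ), SchP x → ∀ δ : ℝ, 0 < δ → ∃ C : ℝ, 0 < C ∧
  ∀ Y H : ℕ, 1 ≤ H → ∑ y ∈ Icc 1 Y, Pr x H y ≤ C * (Y : ℝ) ^ (1 + δ) * (H : ℝ) ^ δ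

/-- LF-FOU: the Fourier bound. -/
def GFou : Prop := ∀ (m H T : ℕ) (θ : Fin m → ℝ), 1 ≤ T →
  (∀ h : ℕ, 1 ≤ h → ∀ i, 0 < nd (h * θ i)) →
  ∀ S : Finset (Fin m → ℤ),
    (∀ a ∈ S, (∀ i, |a i| ≤ (H : ℤ)) ∧ nd (∑ i, (a i : ℝ) * θ i) ≤ 1 / (2 * T)) →
    (S.card : ℝ) ≤ 3 / T * ((2 * (H : ℝ) + 1) ^ m + 2 * ∑ h ∈ Ico 1 T, Pr θ H h)

/-- LF-BLK: the second terms. -/
def GBlk : Prop := ∀ (m : ℕ) (x : Fin m → ℝ), SchP x → ∀ e c k : ℝ, 0 < e → 0 < c → 0 < k →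
  ∃ H0 : ℕ, ∀ H : ℕ, H0 ≤ H →
    ∑ q ∈ Icc 2 ⌊(H : ℝ) ^ ((m : ℝ) - k)⌋₊, tq e c q * ∑ h ∈ Ico 1 (Tq e c q), Pr x H (h * q)
      ≤ (H : ℝ) ^ ((m : ℝ) - k / 2)

/-- LF-LOG: the first terms. -/
def GLog : Prop := ∀ e : ℝ, 0 < e → ∀ Q X : ℕ, 2 ≤ Q →
  ∑ q ∈ Icc Q X, 1 / ((q : ℝ) * Real.log q ^ (1 + e)) ≤ (1 + 1 / e) / Real.log Q ^ e

/-- the final statement -/
def Final : Prop := ∀ e : ℝ, 0 < e → ∃ C : ℝ, ∀ (m : ℕ) (x : Fin m → ℝ), 1 ≤ m →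
  (∀ i, IsAlgebraic ℚ (x i)) → Indep x → ∀ c k : ℝ, 0 < c → 0 < k →
  ∃ H0 : ℕ, ∀ H : ℕ, H0 ≤ H → ∀ Q : ℕ, 2 ≤ Q →
    ({a : Fin m → ℤ | (∀ i, |a i| ≤ (H : ℤ)) ∧ ∃ (p : ℤ) (q : ℕ), Q ≤ q ∧
      (q : ℝ) ≤ (H : ℝ) ^ ((m : ℝ) - k) ∧
      |∑ i, (a i : ℝ) * x i - (p : ℝ) / (q : ℝ)| ≤
        c / ((q : ℝ) ^ 2 * Real.log (q : ℝ) ^ (1 + e))}.ncard : ℝ)
      ≤ C * c * (2 * (H : ℝ) + 1) ^ m / Real.log Q ^ e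

end Pool.Agent.Helper73.LF
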