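import Pool.Agent.Helper73.LF.Goals
import Pool.Agent.Helper89.Lang.RothA

/-!
# Linear forms in algebraic numbers (MP_c307ca_nt): the parts of Schmidt's theorem
-/

set_option autoImplicit false

open Finset NumberField

namespace Pool.Agent.Helper73.LF

open Pool.Agent.Helper98.Lang Pool.Agent.Helper92.Ru

/-- LF-FIELD: a number field containing conjugates of all `x_i` at every infinite place -/
def GField : Prop := ∀ (m : ℕ) (x : Fin m → ℝ), (∀ i, IsAlgebraic ℚ (x i)) →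
  ∃ (k : Type) (_ : Field k) (_ : NumberField k) (r : InfinitePlace k → Fin m → k),
    ∀ (v : InfinitePlace k) (i : Fin m), v.embedding (r v i) = ((x i : ℝ) : ℂ)

/-- the point `(n, round (n x_1), ..., round (n x_m))` -/
noncomputable def pt {m : ℕ} (k : Type) [Field k] (x : Fin m → ℝ) (n : ℕ) : Fin (m + 1) → k :=
  Fin.cons ((n : ℤ) : k) (fun i => ((round ((n : ℝ) * x i) : ℤ) : k))

/-- LF-BAD: the good approximations with given exponents lie in finitely many proper subspaces -/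
def GBad : Prop := ∀ (m : ℕ) (x : Fin m → ℝ) (k : Type) [Field k] [NumberField k]
  (r : InfinitePlace k → Fin m → k), (∀ (v : InfinitePlace k) (i : Fin m), v.embedding (r v i) = ((x i : ℝ) : ℂ)) →
  ∀ a : Fin m → ℝ, 1 < ∑ i, a i →
  ∃ (N0 : ℝ) (F : Finset (Submodule k (Fin (m + 1) → k))), (∀ W ∈ F, W ≠ ⊤) ∧
    ∀ n : ℕ, 1 ≤ n → N0 ≤ n → (∀ i, nd (n * x i) ≤ (n : ℝ) ^ (-(a i))) →
      ∃ W ∈ F, pt k x n ∈ W

/-- LF-REL: a proper subspace contains only finitely many of the points -/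
def GRel : Prop := ∀ (m : ℕ) (x : Fin m → ℝ), Indep x → ∀ (k : Type) [Field k] [CharZero k]
  (W : Submodule k (Fin (m + 1) → k)), W ≠ ⊤ → {n : ℕ | pt k x n ∈ W}.Finite

/-- LF-GRID: the last step -/
def GGrid : Prop := ∀ (m : ℕ) (x : Fin m → ℝ), (∀ n : ℕ, 1 ≤ n → ∀ i, 0 < nd (n * x i)) →
  (∀ a : Fin m → ℝ, 1 < ∑ i, a i →
    {n : ℕ | 1 ≤ n ∧ ∀ i, nd (n * x i) ≤ (n : ℝ) ^ (-(a i))}.Finite) → SchP x

end Pool.Agent.Helper73.LF
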