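import Pool.Agent.Helper73.LF.GoalsB

/-!
# Linear forms in algebraic numbers (MP_c307ca_nt): Schmidt's theorem from its parts
-/

set_option autoImplicit false

open Finset NumberField

namespace Pool.Agent.Helper73.LF

open Pool.Agent.Helper98.Lang Pool.Agent.Helper92.Ru

theorem nd_pos_of_indep {m : ℕ} {x : Fin m → ℝ} (h : Indep x) (n : ℕ) (hn : 1 ≤ n) (i : Fin m) :
    0 < nd (n * x i) := by
  rw [nd, abs_pos]
  intro h0
  have h1 := h (-round ((n : ℝ) * x i)) (Pi.single i (n : ℤ)) (by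
    rw [Finset.sum_eq_single i]
    · rw [Pi.single_eq_same]
      push_cast
      linarith
    · intro j _ hj
      rw [Pi.single_eq_of_ne hj]
      simp
    · intro hi
      exact absurd (Finset.mem_univ i) hi)
  have h2 := congrFun h1.2 i
  rw [Pi.single_eq_same, Pi.zero_apply] at h2
  have : (n : ℤ) ≠ 0 := by exact_mod_cast (by omega : n ≠ 0)
  exact this h2

theorem sch_of (h1 : GField) (h2 : GBad) (h3 : GRel) (h4 : GGrid) : GSch := by
  intro m x hx hind
  obtain ⟨k, _, _, r, hr⟩ := h1 m x hx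
  refine h4 m x (fun n hn i => nd_pos_of_indep hind n hn i) ?_
  intro a ha
  obtain ⟨N0, F, hF, hN⟩ := h2 m x k r hr a ha
  have hsub : {n : ℕ | 1 ≤ n ∧ ∀ i, nd (n * x i) ≤ (n : ℝ) ^ (-(a i))} ⊆
      {n : ℕ | (n : ℝ) < N0} ∪ ⋃ W ∈ F, {n : ℕ | pt k x n ∈ W} := by
    intro n hn
    by_cases hlt : (n : ℝ) < N0
    · exact Or.inl hlt
    · right
      obtain ⟨W, hW, hmem⟩ := hN n hn.1 (not_lt.1 hlt) hn.2
      exact Set.mem_biUnion hW hmem
  refine Set.Finite.subset (Set.Finite.union ?_ ?_) hsub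
  · refine (Set.finite_Iic ⌈N0⌉₊).subset fun n hn => ?_
    have h5 : (n : ℝ) < N0 := hn
    have h6 : (n : ℝ) ≤ ⌈N0⌉₊ := h5.le.trans (Nat.le_ceil _)
    exact_mod_cast h6
  · exact Set.Finite.biUnion F.finite_toSet fun W hW => h3 m x hind k W (hF W hW)

end Pool.Agent.Helper73.LF
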